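import Pool.Agent.Lib_helper42.AP.Sol

/-!
Mollification with bounds on the plane (module E).
-/

namespace Pool.Agent.Lib44.AP

open Set Filter Topology MeasureTheory _root_.AP

/-- The mollification of `f` with the kernel `η`. -/
noncomputable def M (η f : ℝ × ℝ → ℝ) (x : ℝ × ℝ) : ℝ := ∫ t, η t * f (x - t)

section
variable {η f g : ℝ × ℝ → ℝ}

theorem integrable_M (hη : Continuous η) (hs : HasCompactSupport η) (hf : Continuous f)
    (x : ℝ × ℝ) : Integrable (fun t => η t * f (x - t)) := by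
  apply Continuous.integrable_of_hasCompactSupport
  · fun_prop
  · exact hs.mul_right

theorem norm_fderiv_le {C : ℝ} {x : ℝ × ℝ} (h1 : |D1 f x| ≤ C) (h2 : |D2 f x| ≤ C) :
    ‖fderiv ℝ f x‖ ≤ 2 * C := by
  have hC : 0 ≤ C := (abs_nonneg _).trans h1
  apply ContinuousLinearMap.opNorm_le_bound _ (by positivity)
  intro v
  rw [fderiv_apply_eq]
  have e1 : |v.1| ≤ ‖v‖ := norm_fst_le v
  have e2 : |v.2| ≤ ‖v‖ := norm_snd_le v
  calc ‖v.1 * D1 f x + v.2 * D2 f x‖ ≤ |v.1 * D1 f x| + |v.2 * D2 f x| := by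
        rw [Real.norm_eq_abs]; exact abs_add_le _ _
    _ = |v.1| * |D1 f x| + |v.2| * |D2 f x| := by rw [abs_mul, abs_mul]
    _ ≤ ‖v‖ * C + ‖v‖ * C := by
        apply add_le_add
        · exact mul_le_mul e1 h1 (abs_nonneg _) (norm_nonneg _)
        · exact mul_le_mul e2 h2 (abs_nonneg _) (norm_nonneg _)
    _ = _ := by ring

theorem hasFDerivAt_M (hη : Continuous η) (hs : HasCompactSupport η) (hf : ContDiff ℝ 1 f)
    {C : ℝ} (h1 : ∀ x, |D1 f x| ≤ C) (h2 : ∀ x, |D2 f x| ≤ C) (x : ℝ × ℝ) :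
    HasFDerivAt (M η f) (∫ t, η t • fderiv ℝ f (x - t)) x := by
  have hfd : Continuous (fderiv ℝ f) := hf.continuous_fderiv (by norm_num)
  have hηi : Integrable η := hη.integrable_of_hasCompactSupport hs
  apply hasFDerivAt_integral_of_dominated_of_fderiv_le (s := univ) (bound := fun t => |η t| * (2 * C))
    (F := fun y t => η t * f (y - t)) (F' := fun y t => η t • fderiv ℝ f (y - t)) univ_mem
  · exact Eventually.of_forall fun y => (integrable_M hη hs hf.continuous y).aestronglyMeasurable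
  · exact integrable_M hη hs hf.continuous x
  · apply Continuous.aestronglyMeasurable
    fun_prop
  · apply Eventually.of_forall
    intro t y _
    rw [norm_smul, Real.norm_eq_abs]
    exact mul_le_mul_of_nonneg_left (norm_fderiv_le (h1 _) (h2 _)) (abs_nonneg _)
  · exact hηi.abs.mul_const _
  · apply Eventually.of_forall
    intro t y _
    have e1 : HasFDerivAt f (fderiv ℝ f (y - t)) (y - t) :=
      (hf.differentiable (by norm_num) _).hasFDerivAt
    have e2 : HasFDerivAt (fun z : ℝ × ℝ => z - t) (ContinuousLinearMap.id ℝ (ℝ × ℝ)) y :=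
      (hasFDerivAt_id y).sub_const t
    have e3 := e1.comp y e2
    rw [ContinuousLinearMap.comp_id] at e3
    exact e3.const_mul (η t)

theorem integrable_M' (hη : Continuous η) (hs : HasCompactSupport η) (hf : ContDiff ℝ 1 f)
    (x : ℝ × ℝ) : Integrable (fun t => η t • fderiv ℝ f (x - t)) := by
  have hfd : Continuous (fderiv ℝ f) := hf.continuous_fderiv (by norm_num)
  apply Continuous.integrable_of_hasCompactSupport
  · fun_prop
  · exact hs.smul_right

theorem D1_M (hη : Continuous η) (hs : HasCompactSupport η) (hf : ContDiff ℝ 1 f)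
    {C : ℝ} (h1 : ∀ x, |D1 f x| ≤ C) (h2 : ∀ x, |D2 f x| ≤ C) : D1 (M η f) = M η (D1 f) := by
  ext x
  simp only [D1]
  rw [(hasFDerivAt_M hη hs hf h1 h2 x).fderiv,
    ContinuousLinearMap.integral_apply (integrable_M' hη hs hf x)]
  rfl

theorem D2_M (hη : Continuous η) (hs : HasCompactSupport η) (hf : ContDiff ℝ 1 f)
    {C : ℝ} (h1 : ∀ x, |D1 f x| ≤ C) (h2 : ∀ x, |D2 f x| ≤ C) : D2 (M η f) = M η (D2 f) := by
  ext x
  simp only [D2]
  rw [(hasFDerivAt_M hη hs hf h1 h2 x).fderiv,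
    ContinuousLinearMap.integral_apply (integrable_M' hη hs hf x)]
  rfl

theorem abs_M_le (hη : Continuous η) (hs : HasCompactSupport η) (h0 : ∀ t, 0 ≤ η t)
    (hi : ∫ t, η t = 1) {C : ℝ} (h : ∀ x, |f x| ≤ C) (x : ℝ × ℝ) : |M η f x| ≤ C := by
  have hηi : Integrable η := hη.integrable_of_hasCompactSupport hs
  have h1 : ‖∫ t, η t * f (x - t)‖ ≤ ∫ t, η t * C := by
    apply norm_integral_le_of_norm_le (hηi.mul_const C)
    apply Eventually.of_forall
    intro t
    rw [norm_mul, Real.norm_eq_abs, Real.norm_eq_abs, abs_of_nonneg (h0 t)]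
    exact mul_le_mul_of_nonneg_left (h _) (h0 t)
  rw [integral_mul_const, hi, one_mul] at h1
  exact h1

theorem abs_M_sub_le (hη : Continuous η) (hs : HasCompactSupport η) (h0 : ∀ t, 0 ≤ η t)
    (hi : ∫ t, η t = 1) (hf : Continuous f) {ω : ℝ → ℝ}
    (h : ∀ x y, |f x - f y| ≤ ω (dist x y)) (x y : ℝ × ℝ) :
    |M η f x - M η f y| ≤ ω (dist x y) := by
  have hηi : Integrable η := hη.integrable_of_hasCompactSupport hs
  have e : M η f x - M η f y = ∫ t, η t * (f (x - t) - f (y - t)) := by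
    unfold M
    rw [← integral_sub (integrable_M hη hs hf x) (integrable_M hη hs hf y)]
    congr 1; ext t; ring
  rw [e]
  have h1 : ‖∫ t, η t * (f (x - t) - f (y - t))‖ ≤ ∫ t, η t * ω (dist x y) := by
    apply norm_integral_le_of_norm_le (hηi.mul_const _)
    apply Eventually.of_forall
    intro t
    rw [norm_mul, Real.norm_eq_abs, Real.norm_eq_abs, abs_of_nonneg (h0 t)]
    have h2 := h (x - t) (y - t)
    rw [dist_sub_right] at h2
    exact mul_le_mul_of_nonneg_left h2 (h0 t)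
  rw [integral_mul_const, hi, one_mul] at h1
  exact h1

theorem abs_M_sub_self_le (hη : Continuous η) (hs : HasCompactSupport η) (h0 : ∀ t, 0 ≤ η t)
    (hi : ∫ t, η t = 1) (hf : Continuous f) {δ : ℝ}
    (h : ∀ x t, η t ≠ 0 → |f (x - t) - f x| ≤ δ) (x : ℝ × ℝ) :
    |M η f x - f x| ≤ δ := by
  have hηi : Integrable η := hη.integrable_of_hasCompactSupport hs
  have e : M η f x - f x = ∫ t, η t * (f (x - t) - f x) := by
    have e1 : f x = ∫ t, η t * f x := by rw [integral_mul_const, hi, one_mul]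
    conv_lhs => rw [e1]
    unfold M
    rw [← integral_sub (integrable_M hη hs hf x) (hηi.mul_const _)]
    congr 1; ext t; ring
  rw [e]
  have h1 : ‖∫ t, η t * (f (x - t) - f x)‖ ≤ ∫ t, η t * δ := by
    apply norm_integral_le_of_norm_le (hηi.mul_const _)
    apply Eventually.of_forall
    intro t
    rw [norm_mul, Real.norm_eq_abs, Real.norm_eq_abs, abs_of_nonneg (h0 t)]
    by_cases ht : η t = 0
    · rw [ht]; simp
    · exact mul_le_mul_of_nonneg_left (h x t ht) (h0 t)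
  rw [integral_mul_const, hi, one_mul] at h1
  exact h1

end

/-- Mollification: a `C³` function with bounded derivatives is uniformly approximated by smooth
functions with the same bounds and the same moduli of continuity of the third derivatives. -/
theorem smooth_approx {φ : ℝ × ℝ → ℝ} (hφ : ContDiff ℝ 3 φ) {K : ℝ} (hK : ∀ x, BdAt φ x K)
    {ω₁ ω₂ : ℝ → ℝ}
    (m1 : ∀ x y, |D1 (D1 (D1 φ)) x - D1 (D1 (D1 φ)) y| ≤ ω₁ (dist x y))
    (m2 : ∀ x y, |D2 (D2 (D2 φ)) x - D2 (D2 (D2 φ)) y| ≤ ω₂ (dist x y))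
    {ε : ℝ} (hε : 0 < ε) :
    ∃ ψ : ℝ × ℝ → ℝ, ContDiff ℝ ((⊤ : ℕ∞) : WithTop ℕ∞) ψ ∧ (∀ x, BdAt ψ x K) ∧
      (∀ x y, |D1 (D1 (D1 ψ)) x - D1 (D1 (D1 ψ)) y| ≤ ω₁ (dist x y)) ∧
      (∀ x y, |D2 (D2 (D2 ψ)) x - D2 (D2 (D2 ψ)) y| ≤ ω₂ (dist x y)) ∧
      ∀ x, |ψ x - φ x| ≤ ε := by
  have hK0 : 0 ≤ K := (abs_nonneg _).trans (hK 0).b0
  have hr : 0 < ε / (2 * K + 1) := by positivity
  let b : ContDiffBump (0 : ℝ × ℝ) := ⟨ε / (2 * K + 1) / 2, ε / (2 * K + 1), by positivity, by linarith⟩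
  set η : ℝ × ℝ → ℝ := b.normed volume with hη
  have cη : Continuous η := b.continuous_normed
  have sη : HasCompactSupport η := b.hasCompactSupport_normed
  have nη : ∀ t, 0 ≤ η t := fun t => b.nonneg_normed t
  have iη : ∫ t, η t = 1 := b.integral_normed
  -- regularity of the derivatives
  have c1 : ContDiff ℝ 2 (D1 φ) := cd_D1 (n := 2) (by simpa using hφ)
  have c2 : ContDiff ℝ 2 (D2 φ) := cd_D2 (n := 2) (by simpa using hφ)
  have c11 : ContDiff ℝ 1 (D1 (D1 φ)) := cd_D1 (n := 1) (by simpa using c1)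
  have c12 : ContDiff ℝ 1 (D1 (D2 φ)) := cd_D1 (n := 1) (by simpa using c2)
  have c22 : ContDiff ℝ 1 (D2 (D2 φ)) := cd_D2 (n := 1) (by simpa using c2)
  have c111 : Continuous (D1 (D1 (D1 φ))) := (cd_D1 (n := 0) (by simpa using c11)).continuous
  have c222 : Continuous (D2 (D2 (D2 φ))) := (cd_D2 (n := 0) (by simpa using c22)).continuous
  have h1φ : ContDiff ℝ 1 φ := hφ.of_le (by norm_num)
  have h21 : D2 (D1 φ) = D1 (D2 φ) := D12_comm_fun (hφ.of_le (by norm_num))
  have e1 : D1 (M η φ) = M η (D1 φ) := D1_M cη sη h1φ (fun x => (hK x).b1) (fun x => (hK x).b2)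
  have e2 : D2 (M η φ) = M η (D2 φ) := D2_M cη sη h1φ (fun x => (hK x).b1) (fun x => (hK x).b2)
  have e11 : D1 (M η (D1 φ)) = M η (D1 (D1 φ)) :=
    D1_M cη sη (c1.of_le (by norm_num)) (fun x => (hK x).b11) (fun x => by rw [h21]; exact (hK x).b12)
  have e12 : D1 (M η (D2 φ)) = M η (D1 (D2 φ)) :=
    D1_M cη sη (c2.of_le (by norm_num)) (fun x => (hK x).b12) (fun x => (hK x).b22)
  have e22 : D2 (M η (D2 φ)) = M η (D2 (D2 φ)) :=
    D2_M cη sη (c2.of_le (by norm_num)) (fun x => (hK x).b12) (fun x => (hK x).b22)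
  have e111 : D1 (M η (D1 (D1 φ))) = M η (D1 (D1 (D1 φ))) :=
    D1_M cη sη c11 (fun x => (hK x).b111)
      (fun x => by rw [comm211 hφ.contDiffAt]; exact (hK x).b112)
  have e112 : D1 (M η (D1 (D2 φ))) = M η (D1 (D1 (D2 φ))) :=
    D1_M cη sη c12 (fun x => (hK x).b112)
      (fun x => by rw [comm212 hφ.contDiffAt]; exact (hK x).b122)
  have e122 : D1 (M η (D2 (D2 φ))) = M η (D1 (D2 (D2 φ))) :=
    D1_M cη sη c22 (fun x => (hK x).b122) (fun x => (hK x).b222)
  have e222 : D2 (M η (D2 (D2 φ))) = M η (D2 (D2 (D2 φ))) :=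
    D2_M cη sη c22 (fun x => (hK x).b122) (fun x => (hK x).b222)
  refine ⟨M η φ, ?_, ?_, ?_, ?_, ?_⟩
  · have h := sη.contDiff_convolution_left (n := ⊤) (ContinuousLinearMap.lsmul ℝ ℝ)
      (μ := volume) b.contDiff_normed hφ.continuous.locallyIntegrable
    exact h
  · intro x
    constructor
    · exact abs_M_le cη sη nη iη (fun x => (hK x).b0) x
    · rw [e1]; exact abs_M_le cη sη nη iη (fun x => (hK x).b1) x
    · rw [e2]; exact abs_M_le cη sη nη iη (fun x => (hK x).b2) x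
    · rw [e1, e11]; exact abs_M_le cη sη nη iη (fun x => (hK x).b11) x
    · rw [e2, e12]; exact abs_M_le cη sη nη iη (fun x => (hK x).b12) x
    · rw [e2, e22]; exact abs_M_le cη sη nη iη (fun x => (hK x).b22) x
    · rw [e1, e11, e111]; exact abs_M_le cη sη nη iη (fun x => (hK x).b111) x
    · rw [e2, e12, e112]; exact abs_M_le cη sη nη iη (fun x => (hK x).b112) x
    · rw [e2, e22, e122]; exact abs_M_le cη sη nη iη (fun x => (hK x).b122) x
    · rw [e2, e22, e222]; exact abs_M_le cη sη nη iη (fun x => (hK x).b222) x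
  · intro x y
    rw [e1, e11, e111]
    exact abs_M_sub_le cη sη nη iη c111 m1 x y
  · intro x y
    rw [e2, e22, e222]
    exact abs_M_sub_le cη sη nη iη c222 m2 x y
  · intro x
    apply abs_M_sub_self_le cη sη nη iη hφ.continuous
    intro x t ht
    have ht' : t ∈ Metric.ball (0 : ℝ × ℝ) (ε / (2 * K + 1)) := by
      have : t ∈ Function.support η := ht
      rwa [hη, b.support_normed_eq] at this
    rw [mem_ball_zero_iff] at ht'
    have h1 : ‖φ (x - t) - φ x‖ ≤ 2 * K * ‖x - t - x‖ := by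
      apply Convex.norm_image_sub_le_of_norm_fderiv_le (s := univ) (𝕜 := ℝ)
      · intro y _; exact h1φ.differentiable (by norm_num) y
      · intro y _; exact norm_fderiv_le (hK y).b1 (hK y).b2
      · exact convex_univ
      · trivial
      · trivial
    have h2 : ‖x - t - x‖ = ‖t‖ := by rw [sub_sub_cancel_left, norm_neg]
    rw [h2] at h1
    rw [Real.norm_eq_abs] at h1
    refine h1.trans ?_
    have h3 : 2 * K * ‖t‖ ≤ 2 * K * (ε / (2 * K + 1)) :=
      mul_le_mul_of_nonneg_left ht'.le (by positivity)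
    refine h3.trans ?_
    rw [mul_div_assoc', div_le_iff₀ (by positivity)]
    nlinarith

theorem hasCompactSupport_D1 {f : ℝ × ℝ → ℝ} (h : HasCompactSupport f) :
    HasCompactSupport (D1 f) :=
  (h.fderiv (𝕜 := ℝ)).comp_left (g := fun L : (ℝ × ℝ) →L[ℝ] ℝ => L (1, 0)) (by simp)

theorem hasCompactSupport_D2 {f : ℝ × ℝ → ℝ} (h : HasCompactSupport f) :
    HasCompactSupport (D2 f) :=
  (h.fderiv (𝕜 := ℝ)).comp_left (g := fun L : (ℝ × ℝ) →L[ℝ] ℝ => L (0, 1)) (by simp)

theorem exists_bound {f : ℝ × ℝ → ℝ} (hc : Continuous f) (h : HasCompactSupport f) :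
    ∃ C, ∀ x, |f x| ≤ C := by
  obtain ⟨C, hC⟩ := hc.bounded_above_of_compact_support h
  exact ⟨C, fun x => by simpa using hC x⟩

/-- Cutting off a `C³` function far away. -/
theorem exists_cutoff {φ : ℝ × ℝ → ℝ} (hφ : ContDiff ℝ 3 φ) {S : Set (ℝ × ℝ)}
    (hS : Bornology.IsBounded S) :
    ∃ φ' : ℝ × ℝ → ℝ, ContDiff ℝ 3 φ' ∧ HasCompactSupport φ' ∧
      (∃ V, IsOpen V ∧ closure S ⊆ V ∧ ∀ x ∈ V, φ' x = φ x) ∧
      (∃ K, ∀ x, BdAt φ' x K) ∧ UniformContinuous (D1 (D1 (D1 φ'))) ∧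
      UniformContinuous (D1 (D1 (D2 φ'))) ∧ UniformContinuous (D1 (D2 (D2 φ'))) ∧
      UniformContinuous (D2 (D2 (D2 φ'))) := by
  obtain ⟨R, hR⟩ := hS.subset_closedBall (0 : ℝ × ℝ)
  set r : ℝ := max R 0 with hr
  have hr0 : 0 ≤ r := le_max_right _ _
  have hSr : closure S ⊆ Metric.closedBall 0 r :=
    closure_minimal (hR.trans (Metric.closedBall_subset_closedBall (le_max_left _ _)))
      Metric.isClosed_closedBall
  let b : ContDiffBump (0 : ℝ × ℝ) := ⟨r + 1, r + 2, by linarith, by linarith⟩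
  have hb : ContDiff ℝ 3 b := b.contDiff
  have hψ : ContDiff ℝ 3 (fun x => b x * φ x) := hb.mul hφ
  have sψ : HasCompactSupport (fun x => b x * φ x) := b.hasCompactSupport.mul_right
  set ψ : ℝ × ℝ → ℝ := fun x => b x * φ x with hψdef
  have c1 : ContDiff ℝ 2 (D1 ψ) := cd_D1 (n := 2) (by simpa using hψ)
  have c2 : ContDiff ℝ 2 (D2 ψ) := cd_D2 (n := 2) (by simpa using hψ)
  have c11 : ContDiff ℝ 1 (D1 (D1 ψ)) := cd_D1 (n := 1) (by simpa using c1)
  have c12 : ContDiff ℝ 1 (D1 (D2 ψ)) := cd_D1 (n := 1) (by simpa using c2)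
  have c22 : ContDiff ℝ 1 (D2 (D2 ψ)) := cd_D2 (n := 1) (by simpa using c2)
  have c111 : Continuous (D1 (D1 (D1 ψ))) := (cd_D1 (n := 0) (by simpa using c11)).continuous
  have c112 : Continuous (D1 (D1 (D2 ψ))) := (cd_D1 (n := 0) (by simpa using c12)).continuous
  have c122 : Continuous (D1 (D2 (D2 ψ))) := (cd_D1 (n := 0) (by simpa using c22)).continuous
  have c222 : Continuous (D2 (D2 (D2 ψ))) := (cd_D2 (n := 0) (by simpa using c22)).continuous
  have s1 := hasCompactSupport_D1 sψ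
  have s2 := hasCompactSupport_D2 sψ
  have s11 := hasCompactSupport_D1 s1
  have s12 := hasCompactSupport_D1 s2
  have s22 := hasCompactSupport_D2 s2
  have s111 := hasCompactSupport_D1 s11
  have s112 := hasCompactSupport_D1 s12
  have s122 := hasCompactSupport_D1 s22
  have s222 := hasCompactSupport_D2 s22
  refine ⟨ψ, hψ, sψ, ⟨Metric.ball 0 (r + 1), Metric.isOpen_ball, ?_, ?_⟩, ?_, ?_, ?_, ?_, ?_⟩
  · exact hSr.trans (Metric.closedBall_subset_ball (by linarith))
  · intro x hx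
    simp only [hψdef]
    rw [b.one_of_mem_closedBall (Metric.ball_subset_closedBall hx), one_mul]
  · obtain ⟨K0, h0⟩ := exists_bound hψ.continuous sψ
    obtain ⟨K1, h1⟩ := exists_bound c1.continuous s1
    obtain ⟨K2, h2⟩ := exists_bound c2.continuous s2
    obtain ⟨K11, h11⟩ := exists_bound c11.continuous s11
    obtain ⟨K12, h12⟩ := exists_bound c12.continuous s12
    obtain ⟨K22, h22⟩ := exists_bound c22.continuous s22
    obtain ⟨K111, h111⟩ := exists_bound c111 s111
    obtain ⟨K112, h112⟩ := exists_bound c112 s112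
    obtain ⟨K122, h122⟩ := exists_bound c122 s122
    obtain ⟨K222, h222⟩ := exists_bound c222 s222
    have p : ∀ {f : ℝ × ℝ → ℝ} {C : ℝ}, (∀ x, |f x| ≤ C) → 0 ≤ C :=
      fun h => (abs_nonneg _).trans (h 0)
    have q0 := p h0
    have q1 := p h1
    have q2 := p h2
    have q11 := p h11
    have q12 := p h12
    have q22 := p h22
    have q111 := p h111
    have q112 := p h112
    have q122 := p h122
    have q222 := p h222
    refine ⟨K0 + K1 + K2 + K11 + K12 + K22 + K111 + K112 + K122 + K222, fun x => ?_⟩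
    constructor
    · linarith [h0 x]
    · linarith [h1 x]
    · linarith [h2 x]
    · linarith [h11 x]
    · linarith [h12 x]
    · linarith [h22 x]
    · linarith [h111 x]
    · linarith [h112 x]
    · linarith [h122 x]
    · linarith [h222 x]
  · exact s111.uniformContinuous_of_continuous c111
  · exact s112.uniformContinuous_of_continuous c112
  · exact s122.uniformContinuous_of_continuous c122
  · exact s222.uniformContinuous_of_continuous c222

/-- A bounded uniformly continuous function has a modulus of continuity. -/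
theorem exists_modulus {f : ℝ × ℝ → ℝ} (hf : UniformContinuous f) {C : ℝ}
    (hC : ∀ x, |f x| ≤ C) :
    ∃ ω : ℝ → ℝ, Monotone ω ∧ (∀ r, 0 ≤ ω r) ∧ (∀ x y, |f x - f y| ≤ ω (dist x y)) ∧
      ∀ ε > 0, ∃ δ > 0, ∀ r ≤ δ, ω r ≤ ε := by
  have hC0 : 0 ≤ C := (abs_nonneg _).trans (hC 0)
  have hb : ∀ r : ℝ, BddAbove (insert 0 {s | ∃ x y : ℝ × ℝ, dist x y ≤ r ∧ s = |f x - f y|}) := by
    intro r
    refine ⟨2 * C, ?_⟩
    rintro s (rfl | ⟨x, y, _, rfl⟩)
    · positivity
    · have h1 := abs_sub (f x) (f y)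
      linarith [hC x, hC y]
  refine ⟨fun r => sSup (insert 0 {s | ∃ x y : ℝ × ℝ, dist x y ≤ r ∧ s = |f x - f y|}),
    ?_, ?_, ?_, ?_⟩
  · intro r r' hr
    apply csSup_le_csSup (hb r') ⟨0, mem_insert _ _⟩
    apply insert_subset_insert
    rintro s ⟨x, y, h, rfl⟩
    exact ⟨x, y, h.trans hr, rfl⟩
  · intro r
    exact le_csSup (hb r) (mem_insert _ _)
  · intro x y
    exact le_csSup (hb _) (mem_insert_of_mem _ ⟨x, y, le_rfl, rfl⟩)
  · intro ε hε
    rw [Metric.uniformContinuous_iff] at hf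
    obtain ⟨δ, hδ, h⟩ := hf ε hε
    refine ⟨δ / 2, by positivity, fun r hr => ?_⟩
    apply csSup_le ⟨0, mem_insert _ _⟩
    rintro s (rfl | ⟨x, y, hxy, rfl⟩)
    · exact hε.le
    · have := h (a := x) (b := y) (by linarith)
      rw [Real.dist_eq] at this
      exact this.le

end Pool.Agent.Lib44.AP
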