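import Mathlib

/-!
Extension of `C³` functions from the closed unit disc of `ℝ × ℝ` to the plane (reflection of
Hestenes in the radial direction).
-/

namespace Pool.Agent.Lib44.AP

open Set Filter Topology

/-- Euclidean norm on `ℝ × ℝ`. -/
noncomputable def rho (x : ℝ × ℝ) : ℝ := Real.sqrt (x.1 ^ 2 + x.2 ^ 2)

theorem rho_sq (x : ℝ × ℝ) : rho x ^ 2 = x.1 ^ 2 + x.2 ^ 2 := Real.sq_sqrt (by positivity)

theorem rho_nonneg (x : ℝ × ℝ) : 0 ≤ rho x := Real.sqrt_nonneg _

theorem continuous_rho : Continuous rho := by unfold rho; fun_prop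

theorem rho_smul {m : ℝ} (hm : 0 ≤ m) (x : ℝ × ℝ) : rho (m • x) = m * rho x := by
  unfold rho
  have e : (m • x).1 ^ 2 + (m • x).2 ^ 2 = m ^ 2 * (x.1 ^ 2 + x.2 ^ 2) := by
    simp; ring
  rw [e, Real.sqrt_mul (by positivity), Real.sqrt_sq hm]

/-- The closed annulus `1/2 < |x| ≤ 1`. -/
def Kin : Set (ℝ × ℝ) := {x | rho x ≤ 1} ∩ {x | 1 / 2 < rho x}

/-- The open annulus `1/2 < |x| < 9/8`. -/
def Uan : Set (ℝ × ℝ) := {x | 1 / 2 < rho x ∧ rho x < 9 / 8}

theorem isOpen_Uan : IsOpen Uan :=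
  (isOpen_lt continuous_const continuous_rho).inter (isOpen_lt continuous_rho continuous_const)

theorem disc_eq : {x : ℝ × ℝ | rho x ≤ 1} = {x : ℝ × ℝ | x.1 ^ 2 + x.2 ^ 2 ≤ 1} := by
  ext x
  simp only [mem_ofPred_eq]
  rw [← rho_sq]
  constructor
  · intro h; have := rho_nonneg x; nlinarith
  · intro h; have := rho_nonneg x; nlinarith

theorem uniqueDiffOn_disc : UniqueDiffOn ℝ {x : ℝ × ℝ | rho x ≤ 1} := by
  apply uniqueDiffOn_convex
  · rw [disc_eq]
    intro x hx y hy a b ha hb hab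
    simp only [mem_ofPred_eq] at *
    simp only [Prod.fst_add, Prod.smul_fst, Prod.snd_add, Prod.smul_snd, smul_eq_mul]
    have hb' : b = 1 - a := by linarith
    subst hb'
    nlinarith [mul_nonneg ha hb, sq_nonneg (x.1 - y.1), sq_nonneg (x.2 - y.2),
      mul_nonneg (mul_nonneg ha hb) (sq_nonneg (x.1 - y.1)),
      mul_nonneg (mul_nonneg ha hb) (sq_nonneg (x.2 - y.2))]
  · refine ⟨(0, 0), ?_⟩
    rw [mem_interior]
    refine ⟨{x | rho x < 1}, fun x hx => ?_, isOpen_lt continuous_rho continuous_const, ?_⟩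
    · simp only [mem_ofPred_eq] at hx ⊢
      exact hx.le
    · simp [rho]

theorem uniqueDiffOn_Kin : UniqueDiffOn ℝ Kin :=
  uniqueDiffOn_disc.inter (isOpen_lt continuous_const continuous_rho)

/-- derivative of the norm -/
noncomputable def dr (x : ℝ × ℝ) : (ℝ × ℝ) →L[ℝ] ℝ :=
  (x.1 / rho x) • ContinuousLinearMap.fst ℝ ℝ ℝ + (x.2 / rho x) • ContinuousLinearMap.snd ℝ ℝ ℝ

/-- angular form -/
noncomputable def dth (x : ℝ × ℝ) : (ℝ × ℝ) →L[ℝ] ℝ :=
  (-x.2 / rho x ^ 2) • ContinuousLinearMap.fst ℝ ℝ ℝ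
    + (x.1 / rho x ^ 2) • ContinuousLinearMap.snd ℝ ℝ ℝ

theorem contDiffAt_rho {n : WithTop ℕ∞} {x : ℝ × ℝ} (hx : 0 < rho x) : ContDiffAt ℝ n rho x := by
  unfold rho
  apply ContDiffAt.sqrt
  · fun_prop
  · rw [← rho_sq]; positivity

theorem hasFDerivAt_rho {x : ℝ × ℝ} (hx : 0 < rho x) : HasFDerivAt rho (dr x) x := by
  have h1 : HasFDerivAt (fun y : ℝ × ℝ => y.1 ^ 2 + y.2 ^ 2)
      ((2 * x.1) • ContinuousLinearMap.fst ℝ ℝ ℝ + (2 * x.2) • ContinuousLinearMap.snd ℝ ℝ ℝ) x := by
    have e1 : HasFDerivAt (fun y : ℝ × ℝ => y.1) (ContinuousLinearMap.fst ℝ ℝ ℝ) x := hasFDerivAt_fst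
    have e2 : HasFDerivAt (fun y : ℝ × ℝ => y.2) (ContinuousLinearMap.snd ℝ ℝ ℝ) x := hasFDerivAt_snd
    have := (e1.pow 2).add (e2.pow 2)
    exact this.congr_fderiv (by ext <;> simp)
  have h2 : x.1 ^ 2 + x.2 ^ 2 ≠ 0 := by rw [← rho_sq]; positivity
  have h3 := h1.sqrt h2
  have e : (1 / (2 * Real.sqrt (x.1 ^ 2 + x.2 ^ 2))) •
      ((2 * x.1) • ContinuousLinearMap.fst ℝ ℝ ℝ + (2 * x.2) • ContinuousLinearMap.snd ℝ ℝ ℝ)
      = dr x := by
    have hx' : Real.sqrt (x.1 ^ 2 + x.2 ^ 2) = rho x := rfl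
    rw [hx']
    ext <;> simp [dr] <;> field_simp
  rw [e] at h3
  exact h3

theorem contDiffAt_dr {n : WithTop ℕ∞} {x : ℝ × ℝ} (hx : 0 < rho x) : ContDiffAt ℝ n dr x := by
  unfold dr
  have h := contDiffAt_rho (n := n) hx
  have h1 : ContDiffAt ℝ n (fun y : ℝ × ℝ => y.1 / rho y) x :=
    contDiffAt_fst.div h hx.ne'
  have h2 : ContDiffAt ℝ n (fun y : ℝ × ℝ => y.2 / rho y) x :=
    contDiffAt_snd.div h hx.ne'
  exact (h1.smul contDiffAt_const).add (h2.smul contDiffAt_const)

theorem contDiffAt_dth {n : WithTop ℕ∞} {x : ℝ × ℝ} (hx : 0 < rho x) : ContDiffAt ℝ n dth x := by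
  unfold dth
  have h := (contDiffAt_rho (n := n) hx).pow 2
  have h1 : ContDiffAt ℝ n (fun y : ℝ × ℝ => -y.2 / rho y ^ 2) x :=
    contDiffAt_snd.neg.div h (by positivity)
  have h2 : ContDiffAt ℝ n (fun y : ℝ × ℝ => y.1 / rho y ^ 2) x :=
    contDiffAt_fst.div h (by positivity)
  exact (h1.smul contDiffAt_const).add (h2.smul contDiffAt_const)

/-- decomposition of a vector into its radial and angular parts -/
theorem decomp {x : ℝ × ℝ} (hx : 0 < rho x) (v : ℝ × ℝ) :
    v = dr x v • ((1 / rho x) • x) + dth x v • ((-x.2, x.1) : ℝ × ℝ) := by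
  have h := rho_sq x
  have h0 : rho x ≠ 0 := hx.ne'
  ext
  · simp only [dr, dth, add_apply, smul_apply,
      ContinuousLinearMap.coe_fst', ContinuousLinearMap.coe_snd', smul_eq_mul, Prod.fst_add,
      Prod.smul_fst]
    field_simp
    rw [h]; ring
  · simp only [dr, dth, add_apply, smul_apply,
      ContinuousLinearMap.coe_fst', ContinuousLinearMap.coe_snd', smul_eq_mul, Prod.snd_add,
      Prod.smul_snd]
    field_simp
    rw [h]; ring

theorem apply_decomp {x : ℝ × ℝ} (hx : 0 < rho x) (F : (ℝ × ℝ) →L[ℝ] ℝ) (v : ℝ × ℝ) :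
    F v = dr x v * F ((1 / rho x) • x) + dth x v * F ((-x.2, x.1) : ℝ × ℝ) := by
  have h := congrArg F (decomp hx v)
  rw [map_add, map_smul F (dr x v) ((1 / rho x) • x),
    map_smul F (dth x v) ((-x.2, x.1) : ℝ × ℝ)] at h
  exact h

/-- The factor of the reflection with ratio `l`. -/
noncomputable def mf (l : ℝ) (x : ℝ × ℝ) : ℝ := (1 + l) / rho x - l

/-- The radial reflection with ratio `l`. -/
noncomputable def refl (l : ℝ) (x : ℝ × ℝ) : ℝ × ℝ := mf l x • x

theorem refl_of_rho_eq_one (l : ℝ) {x : ℝ × ℝ} (hx : rho x = 1) : refl l x = x := by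
  unfold refl mf; rw [hx]; simp

theorem mf_pos {l : ℝ} (hl : 0 < l) (hl4 : l ≤ 4) {x : ℝ × ℝ} (h1 : 1 ≤ rho x)
    (h2 : rho x < 9 / 8) : 0 < mf l x := by
  unfold mf
  rw [sub_pos, lt_div_iff₀ (by linarith)]
  nlinarith

theorem rho_refl {l : ℝ} (hl : 0 < l) (hl4 : l ≤ 4) {x : ℝ × ℝ} (h1 : 1 ≤ rho x)
    (h2 : rho x < 9 / 8) : rho (refl l x) = 1 - l * (rho x - 1) := by
  unfold refl
  rw [rho_smul (mf_pos hl hl4 h1 h2).le, mf]
  have : rho x ≠ 0 := by linarith
  field_simp
  ring

theorem refl_mem {l : ℝ} (hl : 0 < l) (hl4 : l ≤ 4) {x : ℝ × ℝ} (h1 : 1 ≤ rho x)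
    (h2 : rho x < 9 / 8) : refl l x ∈ Kin := by
  refine ⟨?_, ?_⟩
  · simp only [mem_ofPred_eq]; rw [rho_refl hl hl4 h1 h2]; nlinarith
  · simp only [mem_ofPred_eq]; rw [rho_refl hl hl4 h1 h2]; nlinarith

theorem hasFDerivAt_refl (l : ℝ) {x : ℝ × ℝ} (hx : 0 < rho x) :
    HasFDerivAt (refl l) (mf l x • ContinuousLinearMap.id ℝ (ℝ × ℝ) +
      (-((1 + l) / rho x ^ 2) • dr x).smulRight x) x := by
  have h1 : HasFDerivAt (mf l) (-((1 + l) / rho x ^ 2) • dr x) x := by
    unfold mf
    have h2 := (((hasDerivAt_inv hx.ne').comp_hasFDerivAt x (hasFDerivAt_rho hx)).const_mul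
      (1 + l)).sub_const l
    refine (h2.congr_of_eventuallyEq (Eventually.of_forall fun y => ?_)).congr_fderiv ?_
    · simp [div_eq_mul_inv]
    · ext <;> simp <;> ring
  unfold refl
  exact h1.smul (hasFDerivAt_id x)

/-- The extension with coefficients `c` and ratios `l`. -/
noncomputable def Gx {ι : Type*} [Fintype ι] (l c : ι → ℝ) (f : ℝ × ℝ → ℝ) (x : ℝ × ℝ) : ℝ :=
  if rho x ≤ 1 then f x else ∑ j, c j * f (refl (l j) x)

/-- radial derivative -/
noncomputable def rd (f : ℝ × ℝ → ℝ) (x : ℝ × ℝ) : ℝ := fderivWithin ℝ f Kin x ((1 / rho x) • x)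

/-- angular derivative -/
noncomputable def td (f : ℝ × ℝ → ℝ) (x : ℝ × ℝ) : ℝ := fderivWithin ℝ f Kin x (-x.2, x.1)

section
variable {ι : Type*} [Fintype ι] {l c : ι → ℝ}

theorem Gx_inside {f : ℝ × ℝ → ℝ} {x : ℝ × ℝ} (h : rho x ≤ 1) : Gx l c f x = f x := if_pos h

theorem Gx_outside {f : ℝ × ℝ → ℝ} {x : ℝ × ℝ} (hc : ∑ j, c j = 1) (h : 1 ≤ rho x) :
    Gx l c f x = ∑ j, c j * f (refl (l j) x) := by
  unfold Gx
  split_ifs with h1
  · have h2 : rho x = 1 := le_antisymm h1 h
    rw [Finset.sum_congr rfl fun j _ => by rw [refl_of_rho_eq_one (l j) h2], ← Finset.sum_mul, hc,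
      one_mul]
  · rfl

theorem nhdsWithin_Kin {x : ℝ × ℝ} (hx : 1 / 2 < rho x) :
    𝓝[Kin] x = 𝓝[{y | rho y ≤ 1}] x := by
  apply nhdsWithin_eq_nhdsWithin (s := {y | 1 / 2 < rho y}) hx
    (isOpen_lt continuous_const continuous_rho)
  ext y
  simp only [Kin, mem_inter_iff, mem_ofPred_eq]
  tauto

theorem continuousOn_Gx (hl : ∀ j, 0 < l j) (hl4 : ∀ j, l j ≤ 4) (hc : ∑ j, c j = 1)
    {f : ℝ × ℝ → ℝ} (hf : ContinuousOn f Kin) : ContinuousOn (Gx l c f) Uan := by
  intro x hx
  have hx0 : 0 < rho x := by linarith [hx.1]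
  apply ContinuousAt.continuousWithinAt
  have key : ContinuousWithinAt (Gx l c f) ({y | rho y ≤ 1} ∪ {y | 1 ≤ rho y}) x := by
    apply ContinuousWithinAt.union
    · by_cases h : rho x ≤ 1
      · have h1 : ContinuousWithinAt f {y | rho y ≤ 1} x := by
          have := hf x ⟨h, hx.1⟩
          unfold ContinuousWithinAt at this ⊢
          rwa [nhdsWithin_Kin hx.1] at this
        exact h1.congr (fun y hy => Gx_inside hy) (Gx_inside h)
      · have : x ∉ closure {y | rho y ≤ 1} := by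
          rwa [(isClosed_le continuous_rho continuous_const).closure_eq]
        exact continuousWithinAt_of_notMem_closure this
    · by_cases h : 1 ≤ rho x
      · have h1 : ContinuousWithinAt (fun y => ∑ j, c j * f (refl (l j) y))
            ({y | 1 ≤ rho y} ∩ {y | rho y < 9 / 8}) x := by
          apply tendsto_finsetSum
          intro j _
          apply tendsto_const_nhds.mul
          have h2 : ContinuousAt (refl (l j)) x := (hasFDerivAt_refl (l j) hx0).continuousAt
          exact (hf _ (refl_mem (hl j) (hl4 j) h hx.2)).comp h2.continuousWithinAt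
            (fun y hy => refl_mem (hl j) (hl4 j) hy.1 hy.2)
        have h3 : ContinuousWithinAt (fun y => ∑ j, c j * f (refl (l j) y)) {y | 1 ≤ rho y} x := by
          rwa [continuousWithinAt_inter ((isOpen_lt continuous_rho continuous_const).mem_nhds hx.2)]
            at h1
        exact h3.congr (fun y hy => Gx_outside hc hy) (Gx_outside hc h)
      · have : x ∉ closure {y | 1 ≤ rho y} := by
          rwa [(isClosed_le continuous_const continuous_rho).closure_eq]
        exact continuousWithinAt_of_notMem_closure this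
  have e : ({y : ℝ × ℝ | rho y ≤ 1} ∪ {y | 1 ≤ rho y}) = univ := by
    ext y; simp [le_total]
  rw [e] at key
  exact continuousWithinAt_univ _ _ |>.mp key

theorem hasFDerivAt_Gx (hl : ∀ j, 0 < l j) (hl4 : ∀ j, l j ≤ 4) (hc : ∑ j, c j = 1)
    (hc1 : ∑ j, (-(l j)) * c j = 1)
    {f : ℝ × ℝ → ℝ} (hf : DifferentiableOn ℝ f Kin) {x : ℝ × ℝ} (hx : x ∈ Uan) :
    HasFDerivAt (Gx l c f)
      (Gx l (fun j => (-(l j)) * c j) (rd f) x • dr x + Gx l c (td f) x • dth x) x := by
  have hx0 : 0 < rho x := by linarith [hx.1]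
  set L := Gx l (fun j => (-(l j)) * c j) (rd f) x • dr x + Gx l c (td f) x • dth x with hL
  have key : HasFDerivWithinAt (Gx l c f) L ({y | rho y ≤ 1} ∪ {y | 1 ≤ rho y}) x := by
    apply HasFDerivWithinAt.union
    · by_cases h : rho x ≤ 1
      · have h1 : HasFDerivWithinAt f (fderivWithin ℝ f Kin x) {y | rho y ≤ 1} x := by
          have := (hf x ⟨h, hx.1⟩).hasFDerivWithinAt
          rwa [hasFDerivWithinAt_iff_tendsto, nhdsWithin_Kin hx.1, ← hasFDerivWithinAt_iff_tendsto]
            at this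
        have h2 : fderivWithin ℝ f Kin x = L := by
          apply ContinuousLinearMap.ext
          intro v
          rw [apply_decomp hx0, hL, Gx_inside h, Gx_inside h]
          simp only [add_apply, smul_apply, smul_eq_mul, rd, td]
          ring
        rw [h2] at h1
        exact h1.congr (fun y hy => Gx_inside hy) (Gx_inside h)
      · have : x ∉ closure {y | rho y ≤ 1} := by
          rwa [(isClosed_le continuous_rho continuous_const).closure_eq]
        exact HasFDerivWithinAt.of_notMem_closure this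
    · by_cases h : 1 ≤ rho x
      · have h1 : ∀ j, HasFDerivWithinAt (fun y => c j * f (refl (l j) y))
            (c j • (fderivWithin ℝ f Kin (refl (l j) x)).comp
              (mf (l j) x • ContinuousLinearMap.id ℝ (ℝ × ℝ) +
                (-((1 + l j) / rho x ^ 2) • dr x).smulRight x))
            ({y | 1 ≤ rho y} ∩ {y | rho y < 9 / 8}) x := by
          intro j
          have h2 := (hf _ (refl_mem (hl j) (hl4 j) h hx.2)).hasFDerivWithinAt
          have h3 := h2.comp x (hasFDerivAt_refl (l j) hx0).hasFDerivWithinAt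
            (s := {y | 1 ≤ rho y} ∩ {y | rho y < 9 / 8})
            (fun y hy => refl_mem (hl j) (hl4 j) hy.1 hy.2)
          exact h3.const_mul (c j)
        have h2 := HasFDerivWithinAt.fun_sum (fun j (_ : j ∈ Finset.univ) => h1 j)
        have h3 : HasFDerivWithinAt (fun y => ∑ j, c j * f (refl (l j) y))
            (∑ j, c j • (fderivWithin ℝ f Kin (refl (l j) x)).comp
              (mf (l j) x • ContinuousLinearMap.id ℝ (ℝ × ℝ) +
                (-((1 + l j) / rho x ^ 2) • dr x).smulRight x)) {y | 1 ≤ rho y} x := by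
          rwa [hasFDerivWithinAt_inter ((isOpen_lt continuous_rho continuous_const).mem_nhds hx.2)]
            at h2
        have h4 : (∑ j, c j • (fderivWithin ℝ f Kin (refl (l j) x)).comp
              (mf (l j) x • ContinuousLinearMap.id ℝ (ℝ × ℝ) +
                (-((1 + l j) / rho x ^ 2) • dr x).smulRight x)) = L := by
          apply ContinuousLinearMap.ext
          intro v
          rw [hL, Gx_outside hc1 h, Gx_outside hc h]
          simp only [add_apply, smul_apply, smul_eq_mul, sum_apply,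
            Finset.sum_mul, ← Finset.sum_add_distrib]
          apply Finset.sum_congr rfl
          intro j _
          set F := fderivWithin ℝ f Kin (refl (l j) x) with hF
          have hm := mf_pos (hl j) (hl4 j) h hx.2
          have e1 : rd f (refl (l j) x) = F ((1 / rho x) • x) := by
            unfold rd
            rw [← hF]
            congr 1
            unfold refl
            rw [rho_smul hm.le, smul_smul]
            congr 1
            field_simp
          have e2 : td f (refl (l j) x) = mf (l j) x * F ((-x.2, x.1) : ℝ × ℝ) := by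
            unfold td
            rw [← hF, ← smul_eq_mul, ← map_smul]
            congr 1
            unfold refl
            ext <;> simp
          have e3 : F x = rho x * F ((1 / rho x) • x) := by
            rw [← smul_eq_mul, ← map_smul, smul_smul, mul_one_div_cancel hx0.ne', one_smul]
          have e4 := apply_decomp hx0 F v
          rw [e1, e2]
          simp only [ContinuousLinearMap.comp_apply, add_apply, smul_apply,
            ContinuousLinearMap.id_apply, ContinuousLinearMap.smulRight_apply, map_add, map_smul,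
            smul_eq_mul]
          rw [e3, e4]
          unfold mf
          field_simp
          ring
        rw [h4] at h3
        exact h3.congr (fun y hy => Gx_outside hc hy) (Gx_outside hc h)
      · have : x ∉ closure {y | 1 ≤ rho y} := by
          rwa [(isClosed_le continuous_const continuous_rho).closure_eq]
        exact HasFDerivWithinAt.of_notMem_closure this
  have e : ({y : ℝ × ℝ | rho y ≤ 1} ∪ {y | 1 ≤ rho y}) = univ := by
    ext y; simp [le_total]
  rw [e] at key
  exact hasFDerivWithinAt_univ.mp key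

theorem contDiffOn_rd {k : ℕ} {f : ℝ × ℝ → ℝ} (hf : ContDiffOn ℝ (k + 1 : ℕ) f Kin) :
    ContDiffOn ℝ k (rd f) Kin := by
  have h1 : ContDiffOn ℝ k (fderivWithin ℝ f Kin) Kin :=
    hf.fderivWithin uniqueDiffOn_Kin (by norm_cast)
  have h2 : ContDiffOn ℝ k (fun x : ℝ × ℝ => (1 / rho x) • x) Kin := by
    intro x hx
    have hx0 : 0 < rho x := by have := hx.2; simp only [mem_ofPred_eq] at this; linarith
    exact ((contDiffAt_const.div (contDiffAt_rho hx0) hx0.ne').smul
      contDiffAt_id).contDiffWithinAt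
  exact h1.clm_apply h2

theorem contDiffOn_td {k : ℕ} {f : ℝ × ℝ → ℝ} (hf : ContDiffOn ℝ (k + 1 : ℕ) f Kin) :
    ContDiffOn ℝ k (td f) Kin := by
  have h1 : ContDiffOn ℝ k (fderivWithin ℝ f Kin) Kin :=
    hf.fderivWithin uniqueDiffOn_Kin (by norm_cast)
  have h2 : ContDiffOn ℝ k (fun x : ℝ × ℝ => ((-x.2, x.1) : ℝ × ℝ)) Kin := by
    apply ContDiff.contDiffOn; fun_prop
  exact h1.clm_apply h2

theorem contDiffOn_Gx (hl : ∀ j, 0 < l j) (hl4 : ∀ j, l j ≤ 4) :
    ∀ (k : ℕ) (c : ι → ℝ) (f : ℝ × ℝ → ℝ), (∀ i ≤ k, ∑ j, (-(l j)) ^ i * c j = 1) →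
      ContDiffOn ℝ k f Kin → ContDiffOn ℝ k (Gx l c f) Uan := by
  intro k
  induction k with
  | zero =>
    intro c f hc hf
    have hc0 : ∑ j, c j = 1 := by simpa using hc 0 le_rfl
    rw [Nat.cast_zero, contDiffOn_zero] at hf ⊢
    exact continuousOn_Gx hl hl4 hc0 hf
  | succ k ih =>
    intro c f hc hf
    have hc0 : ∑ j, c j = 1 := by simpa using hc 0 (by omega)
    have hc1 : ∑ j, (-(l j)) * c j = 1 := by simpa using hc 1 (by omega)
    have hd : DifferentiableOn ℝ f Kin := hf.differentiableOn (by simp)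
    rw [Nat.cast_succ, contDiffOn_succ_iff_fderiv_of_isOpen isOpen_Uan]
    refine ⟨fun x hx => (hasFDerivAt_Gx hl hl4 hc0 hc1 hd hx).differentiableAt.differentiableWithinAt,
      fun h => by simp at h, ?_⟩
    have h1 : ContDiffOn ℝ k (Gx l (fun j => (-(l j)) * c j) (rd f)) Uan := by
      apply ih _ _ _ (contDiffOn_rd hf)
      intro i hi
      have := hc (i + 1) (by omega)
      rw [← this]
      apply Finset.sum_congr rfl
      intro j _
      ring
    have h2 : ContDiffOn ℝ k (Gx l c (td f)) Uan :=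
      ih _ _ (fun i hi => hc i (by omega)) (contDiffOn_td hf)
    have h3 : ContDiffOn ℝ k dr Uan := fun x hx =>
      (contDiffAt_dr (by linarith [hx.1])).contDiffWithinAt
    have h4 : ContDiffOn ℝ k dth Uan := fun x hx =>
      (contDiffAt_dth (by linarith [hx.1])).contDiffWithinAt
    refine ((h1.smul h3).add (h2.smul h4)).congr ?_
    intro x hx
    exact (hasFDerivAt_Gx hl hl4 hc0 hc1 hd hx).fderiv

end

/-- Every function which is `C³` on the closed unit disc extends to a `C³` function on the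
plane. -/
theorem exists_extension {f : ℝ × ℝ → ℝ}
    (hf : ContDiffOn ℝ 3 f {x | x.1 ^ 2 + x.2 ^ 2 ≤ 1}) :
    ∃ g : ℝ × ℝ → ℝ, ContDiff ℝ 3 g ∧ ∀ x, x.1 ^ 2 + x.2 ^ 2 ≤ 1 → g x = f x := by
  rw [← disc_eq] at hf
  let l : Fin 4 → ℝ := ![1, 2, 3, 4]
  let c : Fin 4 → ℝ := ![10, -20, 15, -4]
  have hl : ∀ j, 0 < l j := by intro j; fin_cases j <;> norm_num [l]
  have hl4 : ∀ j, l j ≤ 4 := by intro j; fin_cases j <;> norm_num [l]
  have hc : ∀ i ≤ 3, ∑ j, (-(l j)) ^ i * c j = 1 := by
    intro i hi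
    interval_cases i <;> simp [Fin.sum_univ_four, l, c] <;> norm_num
  have hG : ContDiffOn ℝ 3 (Gx l c f) Uan := by
    have := contDiffOn_Gx hl hl4 3 c f hc (hf.mono (fun x hx => hx.1))
    exact_mod_cast this
  -- cutoff
  let χ : ℝ × ℝ → ℝ := fun x => Real.smoothTransition (12 - 10 * (x.1 ^ 2 + x.2 ^ 2))
  have hχ : ContDiff ℝ 3 χ := by
    apply Real.smoothTransition.contDiff.comp
    fun_prop
  have hχ1 : ∀ x, rho x ≤ 1 → χ x = 1 := by
    intro x hx
    apply Real.smoothTransition.one_of_one_le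
    have h1 := rho_sq x
    have h2 := rho_nonneg x
    nlinarith
  have hχ0 : ∀ x : ℝ × ℝ, 12 < 10 * (x.1 ^ 2 + x.2 ^ 2) → χ x = 0 := by
    intro x hx
    apply Real.smoothTransition.zero_of_nonpos
    linarith
  refine ⟨fun x => χ x * Gx l c f x, ?_, ?_⟩
  · rw [contDiff_iff_contDiffAt]
    intro x
    by_cases h1 : rho x < 9 / 8
    · apply hχ.contDiffAt.mul
      by_cases h2 : 1 / 2 < rho x
      · exact hG.contDiffAt (isOpen_Uan.mem_nhds ⟨h2, h1⟩)
      · have h3 : {y : ℝ × ℝ | rho y < 1} ∈ 𝓝 x := by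
          apply (isOpen_lt continuous_rho continuous_const).mem_nhds
          simp only [mem_ofPred_eq]; linarith
        have h4 : {y : ℝ × ℝ | rho y ≤ 1} ∈ 𝓝 x := by
          refine mem_of_superset h3 fun y hy => ?_
          simp only [mem_ofPred_eq] at hy ⊢
          exact hy.le
        apply (hf.contDiffAt h4).congr_of_eventuallyEq
        filter_upwards [h4] with y hy
        exact Gx_inside hy
    · have h2 : {y : ℝ × ℝ | 12 < 10 * (y.1 ^ 2 + y.2 ^ 2)} ∈ 𝓝 x := by
        apply (isOpen_lt continuous_const (by fun_prop)).mem_nhds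
        simp only [mem_ofPred_eq]
        have h3 := rho_sq x
        nlinarith
      apply (contDiffAt_const (c := (0 : ℝ))).congr_of_eventuallyEq
      filter_upwards [h2] with y hy
      rw [hχ0 y hy, zero_mul]
  · intro x hx
    have h1 : rho x ≤ 1 := by
      have : x ∈ {x : ℝ × ℝ | rho x ≤ 1} := by rw [disc_eq]; exact hx
      exact this
    simp only []
    rw [hχ1 x h1, one_mul, Gx_inside h1]

end Pool.Agent.Lib44.AP
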